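import Mathlib

open Finset Function

namespace Frust

open Classical in
/-- splitting an index type along an embedding -/
noncomputable def splitEquiv {α β : Type} (φ : α ↪ β) :
    α ⊕ {b : β // b ∉ Set.range φ} ≃ β :=
  (Equiv.sumCongr (Equiv.ofInjective φ φ.injective)
    (Equiv.refl _)).trans (Equiv.Set.sumCompl (Set.range φ))

open Classical in
theorem splitEquiv_inl {α β : Type} (φ : α ↪ β) (a : α) :
    splitEquiv φ (Sum.inl a) = φ a := by
  simp only [splitEquiv, Equiv.trans_apply, Equiv.sumCongr_apply, Sum.map_inl,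
    Equiv.ofInjective_apply]
  exact Equiv.Set.sumCompl_apply_inl _ _

noncomputable def extEquiv {α β V : Type} (φ : α ↪ β) :
    (β ↪ V) ≃ Σ f : α ↪ V, ({b : β // b ∉ Set.range φ} ↪ ↥(Set.range f)ᶜ) :=
  (Equiv.embeddingCongr (splitEquiv φ).symm (Equiv.refl V)).trans
    Equiv.sumEmbeddingEquivSigmaEmbeddingRestricted

theorem extEquiv_fst {α β V : Type} (φ : α ↪ β) (u : β ↪ V) :
    (extEquiv φ u).1 = φ.trans u := by
  ext a
  have : (extEquiv φ u).1 a = u (splitEquiv φ (Sum.inl a)) := rfl
  rw [this, splitEquiv_inl]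
  rfl

/-- the extension lemma, sum form -/
theorem sum_ext {α β V : Type} [Fintype α] [Fintype β] [Fintype V] [DecidableEq α]
    [DecidableEq β] [DecidableEq V] (φ : α ↪ β) (f : (α ↪ V) → ℤ) :
    ∑ u : β ↪ V, f (φ.trans u) =
      (((Fintype.card V - Fintype.card α).descFactorial
        (Fintype.card β - Fintype.card α) : ℕ) : ℤ) * ∑ v : α ↪ V, f v := by
  classical
  have h1 : ∑ u : β ↪ V, f (φ.trans u) =
      ∑ x : (Σ f : α ↪ V, ({b : β // b ∉ Set.range φ} ↪ ↥(Set.range f)ᶜ)), f x.1 := by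
    rw [← Equiv.sum_comp (extEquiv φ)]
    refine Finset.sum_congr rfl fun u _ => ?_
    rw [extEquiv_fst]
  rw [h1, Fintype.sum_sigma, Finset.mul_sum]
  refine Finset.sum_congr rfl fun v _ => ?_
  have h2 : ∀ y : ({b : β // b ∉ Set.range φ} ↪ ↥(Set.range v)ᶜ),
      f (Sigma.fst (β := fun v : α ↪ V => ({b : β // b ∉ Set.range φ} ↪ ↥(Set.range v)ᶜ))
        ⟨v, y⟩) = f v := fun y => rfl
  rw [Finset.sum_congr rfl (fun y _ => h2 y), Finset.sum_const, nsmul_eq_mul]
  congr 2
  rw [Finset.card_univ, Fintype.card_embedding_eq]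
  congr 1
  · rw [Fintype.card_compl_set, Set.card_range_of_injective v.injective]
  · have : Fintype.card {b : β // b ∉ Set.range φ} =
        Fintype.card ((Set.range φ)ᶜ : Set β) := by
      refine Fintype.card_congr (Equiv.refl _)
    rw [this, Fintype.card_compl_set, Set.card_range_of_injective φ.injective]

end Frust
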