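import Mathlib
import Pool.Agent.Helper31.FrustDefs
import Pool.Agent.Helper31.Fr.Ext

open Finset Function

namespace Frust

open Classical in
/-- adjacency as element of ZMod 2 -/
noncomputable def az {V : Type} (G : SimpleGraph V) (x y : V) : ZMod 2 := if G.Adj x y then 1 else 0

open Classical in
/-- adjacency as integer -/
noncomputable def ai {V : Type} (G : SimpleGraph V) (x y : V) : ℤ := if G.Adj x y then 1 else 0

/-- integer indicator of being one -/
def ind (z : ZMod 2) : ℤ := if z = 1 then 1 else 0

theorem az_comm {V : Type} (G : SimpleGraph V) (x y : V) : az G x y = az G y x := by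
  unfold az
  by_cases h : G.Adj x y
  · simp [h, h.symm]
  · have h' : ¬ G.Adj y x := fun h2 => h h2.symm
    simp [h, h']

theorem ai_comm {V : Type} (G : SimpleGraph V) (x y : V) : ai G x y = ai G y x := by
  unfold ai
  by_cases h : G.Adj x y
  · simp [h, h.symm]
  · have h' : ¬ G.Adj y x := fun h2 => h h2.symm
    simp [h, h']

theorem az_self {V : Type} (G : SimpleGraph V) (x : V) : az G x x = 0 := by
  unfold az; simp

theorem ai_self {V : Type} (G : SimpleGraph V) (x : V) : ai G x x = 0 := by
  unfold ai; simp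

theorem ai_nonneg {V : Type} (G : SimpleGraph V) (x y : V) : 0 ≤ ai G x y := by
  unfold ai; split_ifs <;> simp

theorem ai_le_one {V : Type} (G : SimpleGraph V) (x y : V) : ai G x y ≤ 1 := by
  unfold ai; split_ifs <;> simp

theorem ai_cast {V : Type} (G : SimpleGraph V) (x y : V) : ((ai G x y : ℤ) : ZMod 2) = az G x y := by
  unfold ai az; split_ifs <;> simp

theorem ai_eq_ind {V : Type} (G : SimpleGraph V) (x y : V) : ai G x y = ind (az G x y) := by
  unfold ai az ind; split_ifs <;> simp_all

theorem ind_nonneg (z : ZMod 2) : 0 ≤ ind z := by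
  unfold ind; split_ifs <;> simp

theorem ind_le_one (z : ZMod 2) : ind z ≤ 1 := by
  unfold ind; split_ifs <;> simp

theorem ind_add_le (z w : ZMod 2) : ind (z + w) ≤ ind z + ind w := by
  revert z w; decide

theorem ind_add_one (z : ZMod 2) : ind z + ind (z + 1) = 1 := by
  revert z; decide

/-- parity of the number of edges along the cyclic sequence -/
noncomputable def par {α V : Type} [Fintype α] (σ : Equiv.Perm α) (G : SimpleGraph V)
    (v : α → V) : ZMod 2 := ∑ i, az G (v i) (v (σ i))

/-- number of odd injective sequences -/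
noncomputable def NN {α V : Type} [Fintype α] [DecidableEq α] [Fintype V] [DecidableEq V]
    (σ : Equiv.Perm α) (G : SimpleGraph V) : ℤ := ∑ v : α ↪ V, ind (par σ G v)

theorem frustCount_eq {k : ℕ} {V : Type} [Fintype V] [DecidableEq V] (G : SimpleGraph V) :
    (frustCount k G : ℤ) = NN (finRotate k) G := by
  classical
  unfold frustCount NN
  rw [Nat.card_eq_fintype_card, Fintype.card_subtype, Finset.card_filter]
  push_cast
  refine Finset.sum_congr rfl fun v _ => ?_
  unfold ind par
  have h : (∑ i, az G (v i) (v (finRotate k i))) =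
      ((Nat.card {i : Fin k // G.Adj (v i) (v (finRotate k i))} : ℕ) : ZMod 2) := by
    rw [Nat.card_eq_fintype_card, Fintype.card_subtype, Finset.card_filter]
    push_cast
    rfl
  rw [h]
  simp only [ZMod.natCast_eq_one_iff_odd]

theorem rot_ne {k : ℕ} (hk : 3 ≤ k) (i : Fin k) : finRotate k i ≠ i := by
  obtain ⟨m, rfl⟩ : ∃ m, k = m + 3 := ⟨k - 3, by omega⟩
  rw [finRotate_apply]
  intro h
  simp at h

theorem rot_rot_ne {k : ℕ} (hk : 3 ≤ k) (i : Fin k) : finRotate k (finRotate k i) ≠ i := by
  obtain ⟨m, rfl⟩ : ∃ m, k = m + 3 := ⟨k - 3, by omega⟩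
  rw [finRotate_apply, finRotate_apply]
  intro h
  rw [add_assoc] at h
  have h2 : (1 : Fin (m+3)) + 1 = 0 := by simpa using h
  have h3 := congrArg Fin.val h2
  rw [Fin.val_add] at h3
  simp at h3
  rw [Nat.mod_eq_of_lt (by omega)] at h3
  omega

end Frust
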