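import Mathlib
import Pool.Agent.Helper31.Fr.Basic

open Finset Function

namespace Frust

theorem sum_emb {a : ℕ} {V : Type} [Fintype V] [DecidableEq V] (f : (Fin a → V) → ℤ) :
    ∑ w : Fin a ↪ V, f w = ∑ w : Fin a → V, if Injective w then f w else 0 := by
  classical
  rw [← Finset.sum_filter]
  rw [← Equiv.sum_comp (Equiv.subtypeInjectiveEquivEmbedding (Fin a) V)]
  exact (Finset.sum_subtype (Finset.univ.filter (fun w : Fin a → V => Injective w))
    (p := fun w => Injective w) (by simp) f).symm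

def tup2 (V : Type) : (V × V) ≃ (Fin 2 → V) where
  toFun p := ![p.1, p.2]
  invFun w := (w 0, w 1)
  left_inv p := by simp
  right_inv w := by ext i; fin_cases i <;> rfl

def tup3 (V : Type) : (V × V × V) ≃ (Fin 3 → V) where
  toFun p := ![p.1, p.2.1, p.2.2]
  invFun w := (w 0, w 1, w 2)
  left_inv p := by simp
  right_inv w := by ext i; fin_cases i <;> rfl

def tup4 (V : Type) : (V × V × V × V) ≃ (Fin 4 → V) where
  toFun p := ![p.1, p.2.1, p.2.2.1, p.2.2.2]
  invFun w := (w 0, w 1, w 2, w 3)
  left_inv p := by simp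
  right_inv w := by ext i; fin_cases i <;> rfl

theorem inj2 {V : Type} (x y : V) : Injective ![x, y] ↔ x ≠ y := by
  constructor
  · intro h e
    have := @h 0 1 (by simpa using e)
    simp at this
  · intro h i j hij
    fin_cases i <;> fin_cases j <;> simp_all [eq_comm]

theorem inj3 {V : Type} (x y z : V) : Injective ![x, y, z] ↔ (x ≠ y ∧ x ≠ z ∧ y ≠ z) := by
  constructor
  · intro h
    refine ⟨fun e => ?_, fun e => ?_, fun e => ?_⟩
    · have := @h 0 1 (by simpa using e)
      simp at this
    · have := @h 0 2 (by simpa using e)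
      simp at this
    · have := @h 1 2 (by simpa using e)
      simp at this
  · rintro ⟨h1, h2, h3⟩ i j hij
    have h1' := h1.symm
    have h2' := h2.symm
    have h3' := h3.symm
    fin_cases i <;> fin_cases j <;> simp_all

theorem inj4 {V : Type} (x y z w : V) : Injective ![x, y, z, w] ↔
    (x ≠ y ∧ x ≠ z ∧ x ≠ w ∧ y ≠ z ∧ y ≠ w ∧ z ≠ w) := by
  constructor
  · intro h
    refine ⟨fun e => ?_, fun e => ?_, fun e => ?_, fun e => ?_, fun e => ?_, fun e => ?_⟩
    · have := @h 0 1 (by simpa using e)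
      simp at this
    · have := @h 0 2 (by simpa using e)
      simp at this
    · have := @h 0 3 (by simpa using e)
      simp at this
    · have := @h 1 2 (by simpa using e)
      simp at this
    · have := @h 1 3 (by simpa using e)
      simp at this
    · have := @h 2 3 (by simpa using e)
      simp at this
  · rintro ⟨h1, h2, h3, h4, h5, h6⟩ i j hij
    have h1' := h1.symm
    have h2' := h2.symm
    have h3' := h3.symm
    have h4' := h4.symm
    have h5' := h5.symm
    have h6' := h6.symm
    fin_cases i <;> fin_cases j <;> simp_all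

theorem sum_emb2 {V : Type} [Fintype V] [DecidableEq V] (f : V → V → ℤ) :
    ∑ w : Fin 2 ↪ V, f (w 0) (w 1) = ∑ x, ∑ y, if x ≠ y then f x y else 0 := by
  classical
  have := sum_emb (V := V) (fun w : Fin 2 → V => f (w 0) (w 1))
  refine this.trans ?_
  rw [← Equiv.sum_comp (tup2 V), Fintype.sum_prod_type]
  refine Finset.sum_congr rfl fun x _ => Finset.sum_congr rfl fun y _ => ?_
  have h : tup2 V (x, y) = ![x, y] := rfl
  rw [h]
  simp only [inj2]
  rfl

theorem sum_emb3 {V : Type} [Fintype V] [DecidableEq V] (f : V → V → V → ℤ) :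
    ∑ w : Fin 3 ↪ V, f (w 0) (w 1) (w 2) =
      ∑ x, ∑ y, ∑ z, if (x ≠ y ∧ x ≠ z ∧ y ≠ z) then f x y z else 0 := by
  classical
  have := sum_emb (V := V) (fun w : Fin 3 → V => f (w 0) (w 1) (w 2))
  refine this.trans ?_
  rw [← Equiv.sum_comp (tup3 V), Fintype.sum_prod_type]
  refine Finset.sum_congr rfl fun x _ => ?_
  rw [Fintype.sum_prod_type]
  refine Finset.sum_congr rfl fun y _ => Finset.sum_congr rfl fun z _ => ?_
  have h : tup3 V (x, y, z) = ![x, y, z] := rfl
  rw [h]
  simp only [inj3]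
  rfl

theorem sum_emb4 {V : Type} [Fintype V] [DecidableEq V] (f : V → V → V → V → ℤ) :
    ∑ w : Fin 4 ↪ V, f (w 0) (w 1) (w 2) (w 3) =
      ∑ x, ∑ y, ∑ z, ∑ w, if (x ≠ y ∧ x ≠ z ∧ x ≠ w ∧ y ≠ z ∧ y ≠ w ∧ z ≠ w)
        then f x y z w else 0 := by
  classical
  have := sum_emb (V := V) (fun w : Fin 4 → V => f (w 0) (w 1) (w 2) (w 3))
  refine this.trans ?_
  rw [← Equiv.sum_comp (tup4 V), Fintype.sum_prod_type]
  refine Finset.sum_congr rfl fun x _ => ?_
  rw [Fintype.sum_prod_type]
  refine Finset.sum_congr rfl fun y _ => ?_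
  rw [Fintype.sum_prod_type]
  refine Finset.sum_congr rfl fun z _ => Finset.sum_congr rfl fun w _ => ?_
  have h : tup4 V (x, y, z, w) = ![x, y, z, w] := rfl
  rw [h]
  simp only [inj4]
  rfl

end Frust
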