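import Mathlib
import Pool.Agent.Helper31.Fr.Tup

open Finset Function

namespace Frust

section
variable {V : Type} [Fintype V] [DecidableEq V]

noncomputable def P1 (R : SimpleGraph V) : ℤ := ∑ w : Fin 2 ↪ V, ai R (w 0) (w 1)
noncomputable def P2 (R : SimpleGraph V) : ℤ :=
  ∑ w : Fin 3 ↪ V, ai R (w 0) (w 1) * ai R (w 1) (w 2)
noncomputable def P22 (R : SimpleGraph V) : ℤ :=
  ∑ w : Fin 4 ↪ V, ai R (w 0) (w 1) * ai R (w 2) (w 3)

theorem P1_eq (R : SimpleGraph V) : P1 R = ∑ x, ∑ y, ai R x y := by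
  unfold P1
  rw [sum_emb2 (fun x y => ai R x y)]
  refine Finset.sum_congr rfl fun x _ => Finset.sum_congr rfl fun y _ => ?_
  split_ifs with h
  · rfl
  · push Not at h
    subst h
    rw [ai_self]

theorem ind_ge (j : ℤ) (hj : 0 ≤ j) : 2 * j - j ^ 2 ≤ ind (j : ZMod 2) := by
  rcases lt_or_ge j 2 with h | h
  · interval_cases j
    · simp [ind]
    · simp [ind]
  · have := ind_nonneg (j : ZMod 2)
    nlinarith

variable {α : Type} [Fintype α] [DecidableEq α] (σ : Equiv.Perm α)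

theorem L1 (R : SimpleGraph V) {i : α} (h1 : σ i ≠ i) :
    ∑ v : α ↪ V, ai R (v i) (v (σ i)) =
      (((Fintype.card V - 2).descFactorial (Fintype.card α - 2) : ℕ) : ℤ) * P1 R := by
  have hφ : Injective ![i, σ i] := by
    rw [inj2]; exact fun e => h1 e.symm
  have := sum_ext (V := V) (⟨![i, σ i], hφ⟩ : Fin 2 ↪ α) (fun w => ai R (w 0) (w 1))
  rw [Fintype.card_fin] at this
  exact this

theorem L2 (R : SimpleGraph V) {i : α} (h1 : ∀ i, σ i ≠ i) (h2 : σ (σ i) ≠ i) :
    ∑ v : α ↪ V, ai R (v i) (v (σ i)) * ai R (v (σ i)) (v (σ (σ i))) =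
      (((Fintype.card V - 3).descFactorial (Fintype.card α - 3) : ℕ) : ℤ) * P2 R := by
  have hφ : Injective ![i, σ i, σ (σ i)] := by
    rw [inj3]; exact ⟨fun e => h1 _ e.symm, fun e => h2 e.symm, fun e => h1 _ e.symm⟩
  have := sum_ext (V := V) (⟨![i, σ i, σ (σ i)], hφ⟩ : Fin 3 ↪ α)
    (fun w => ai R (w 0) (w 1) * ai R (w 1) (w 2))
  rw [Fintype.card_fin] at this
  exact this

theorem L22 (R : SimpleGraph V) {i j : α} (h1 : ∀ i, σ i ≠ i) (hij : j ≠ i)
    (h3 : j ≠ σ i) (h4 : σ j ≠ i) :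
    ∑ v : α ↪ V, ai R (v i) (v (σ i)) * ai R (v j) (v (σ j)) =
      (((Fintype.card V - 4).descFactorial (Fintype.card α - 4) : ℕ) : ℤ) * P22 R := by
  have hφ : Injective ![i, σ i, j, σ j] := by
    rw [inj4]; exact ⟨fun e => h1 _ e.symm, fun e => hij e.symm, fun e => h4 e.symm,
      fun e => h3 e.symm, fun e => hij (σ.injective e).symm, fun e => h1 _ e.symm⟩
  have := sum_ext (V := V) (⟨![i, σ i, j, σ j], hφ⟩ : Fin 4 ↪ α)
    (fun w => ai R (w 0) (w 1) * ai R (w 2) (w 3))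
  rw [Fintype.card_fin] at this
  exact this

/-- sum over the second index -/
theorem inner_sum (R : SimpleGraph V) (h1 : ∀ i, σ i ≠ i) (h2 : ∀ i, σ (σ i) ≠ i) (i : α) :
    ∑ j, ∑ v : α ↪ V, ai R (v i) (v (σ i)) * ai R (v j) (v (σ j)) =
      (((Fintype.card V - 2).descFactorial (Fintype.card α - 2) : ℕ) : ℤ) * P1 R +
      2 * ((((Fintype.card V - 3).descFactorial (Fintype.card α - 3) : ℕ) : ℤ) * P2 R) +
      ((Fintype.card α : ℤ) - 3) *
        ((((Fintype.card V - 4).descFactorial (Fintype.card α - 4) : ℕ) : ℤ) * P22 R) := by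
  have hi3 : σ.symm i ≠ i := fun e => h1 i (by rw [Equiv.symm_apply_eq] at e; exact e.symm)
  have hi4 : σ i ≠ σ.symm i := fun e => h2 i (by rw [e]; simp)
  have hsplit : (Finset.univ : Finset α) =
      ({i, σ i, σ.symm i} : Finset α) ∪ (Finset.univ \ {i, σ i, σ.symm i}) := by
    simp
  rw [hsplit, Finset.sum_union Finset.disjoint_sdiff]
  congr 1
  · rw [Finset.sum_insert, Finset.sum_insert, Finset.sum_singleton, L2 σ R h1 (h2 i)]
    · have e1 : ∑ v : α ↪ V, ai R (v i) (v (σ i)) * ai R (v i) (v (σ i)) =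
          ∑ v : α ↪ V, ai R (v i) (v (σ i)) := by
        refine Finset.sum_congr rfl fun v _ => ?_
        unfold ai; split_ifs <;> simp
      have e2 : ∑ v : α ↪ V, ai R (v i) (v (σ i)) * ai R (v (σ.symm i)) (v (σ (σ.symm i))) =
          ∑ v : α ↪ V, ai R (v (σ.symm i)) (v (σ (σ.symm i))) *
            ai R (v (σ (σ.symm i))) (v (σ (σ (σ.symm i)))) := by
        refine Finset.sum_congr rfl fun v _ => ?_
        rw [Equiv.apply_symm_apply, mul_comm]
      rw [e1, e2, L1 σ R (h1 i), L2 σ R h1 (h2 _)]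
      ring
    · rw [Finset.mem_singleton]; exact hi4
    · rw [Finset.mem_insert, Finset.mem_singleton]
      rintro (e | e)
      · exact h1 i e.symm
      · exact hi3 e.symm
  · have hc : (((Finset.univ \ {i, σ i, σ.symm i} : Finset α).card : ℕ) : ℤ) =
        (Fintype.card α : ℤ) - 3 := by
      rw [Finset.card_sdiff_of_subset (Finset.subset_univ _)]
      have h3 : ({i, σ i, σ.symm i} : Finset α).card = 3 := by
        rw [Finset.card_eq_three]
        exact ⟨i, σ i, σ.symm i, fun e => h1 i e.symm, fun e => hi3 e.symm, hi4, rfl⟩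
      rw [h3, Finset.card_univ]
      have : 3 ≤ Fintype.card α := by
        rw [← h3]; exact Finset.card_le_univ _
      omega
    rw [Finset.sum_congr rfl (g := fun _ =>
      ((((Fintype.card V - 4).descFactorial (Fintype.card α - 4) : ℕ) : ℤ) * P22 R))]
    · rw [Finset.sum_const, nsmul_eq_mul, hc]
    · intro j hj
      rw [Finset.mem_sdiff, Finset.mem_insert, Finset.mem_insert, Finset.mem_singleton] at hj
      push Not at hj
      refine L22 σ R h1 hj.2.1 hj.2.2.1 (fun e => hj.2.2.2 ?_)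
      rw [← e]; simp

theorem NN_lower (R : SimpleGraph V) (h1 : ∀ i, σ i ≠ i) (h2 : ∀ i, σ (σ i) ≠ i) :
    (Fintype.card α : ℤ) *
     ((((Fintype.card V - 2).descFactorial (Fintype.card α - 2) : ℕ) : ℤ) * P1 R -
      2 * ((((Fintype.card V - 3).descFactorial (Fintype.card α - 3) : ℕ) : ℤ) * P2 R) -
      ((Fintype.card α : ℤ) - 3) *
        ((((Fintype.card V - 4).descFactorial (Fintype.card α - 4) : ℕ) : ℤ) * P22 R))
      ≤ NN σ R := by
  have hpt : ∀ v : α ↪ V, 2 * (∑ i, ai R (v i) (v (σ i))) - (∑ i, ai R (v i) (v (σ i))) ^ 2 ≤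
      ind (par σ R v) := by
    intro v
    have := ind_ge (∑ i, ai R (v i) (v (σ i))) (Finset.sum_nonneg fun i _ => ai_nonneg _ _ _)
    have e : ((∑ i, ai R (v i) (v (σ i)) : ℤ) : ZMod 2) = par σ R v := by
      unfold par
      push_cast
      refine Finset.sum_congr rfl fun i _ => ai_cast _ _ _
    rw [e] at this
    exact this
  have hsum := Finset.sum_le_sum (s := (Finset.univ : Finset (α ↪ V))) fun v _ => hpt v
  refine le_trans (le_of_eq ?_) hsum
  rw [Finset.sum_sub_distrib, ← Finset.mul_sum, Finset.sum_comm]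
  have hsq : ∑ v : α ↪ V, (∑ i, ai R (v i) (v (σ i))) ^ 2 =
      ∑ i, ∑ j, ∑ v : α ↪ V, ai R (v i) (v (σ i)) * ai R (v j) (v (σ j)) := by
    have : ∀ v : α ↪ V, (∑ i, ai R (v i) (v (σ i))) ^ 2 =
        ∑ i, ∑ j, ai R (v i) (v (σ i)) * ai R (v j) (v (σ j)) := by
      intro v
      rw [sq, Finset.sum_mul_sum]
    rw [Finset.sum_congr rfl fun v _ => this v, Finset.sum_comm]
    refine Finset.sum_congr rfl fun i _ => ?_
    rw [Finset.sum_comm]
  rw [hsq]
  rw [Finset.sum_congr rfl fun i _ => inner_sum σ R h1 h2 i]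
  rw [Finset.sum_congr rfl fun i _ => L1 σ R (h1 i)]
  rw [Finset.sum_const, Finset.sum_const, Finset.card_univ, nsmul_eq_mul, nsmul_eq_mul]
  ring

end

end Frust
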