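import Mathlib
import Pool.Agent.Helper31.Fr.Lower

open Finset Function

namespace Frust

section
variable {V : Type} [Fintype V] [DecidableEq V]

theorem P2_eq (R : SimpleGraph V) :
    P2 R = ∑ x, ∑ y, ∑ z, if x ≠ z then ai R x y * ai R y z else 0 := by
  unfold P2
  rw [sum_emb3 (fun x y z => ai R x y * ai R y z)]
  refine Finset.sum_congr rfl fun x _ => Finset.sum_congr rfl fun y _ =>
    Finset.sum_congr rfl fun z _ => ?_
  by_cases hxy : x = y
  · subst hxy; simp [ai_self]
  · by_cases hyz : y = z
    · subst hyz; simp [ai_self]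
    · by_cases hxz : x = z
      · simp [hxz]
      · simp [hxy, hyz, hxz]

theorem P22_eq (R : SimpleGraph V) :
    P22 R = ∑ x, ∑ y, ∑ z, ∑ w, if (x ≠ z ∧ x ≠ w ∧ y ≠ z ∧ y ≠ w) then
      ai R x y * ai R z w else 0 := by
  unfold P22
  rw [sum_emb4 (fun x y z w => ai R x y * ai R z w)]
  refine Finset.sum_congr rfl fun x _ => Finset.sum_congr rfl fun y _ =>
    Finset.sum_congr rfl fun z _ => Finset.sum_congr rfl fun w _ => ?_
  by_cases hxy : x = y
  · subst hxy; simp [ai_self]
  · by_cases hzw : z = w
    · subst hzw; simp [ai_self]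
    · simp [hxy, hzw]

theorem P1_sq (R : SimpleGraph V) :
    P1 R ^ 2 = ∑ x, ∑ y, ∑ z, ∑ w, ai R x y * ai R z w := by
  rw [P1_eq, sq, Finset.sum_mul_sum]
  refine Finset.sum_congr rfl fun x _ => ?_
  have : ∀ z, (∑ y, ai R x y) * (∑ w, ai R z w) = ∑ y, ∑ w, ai R x y * ai R z w := fun z => by
    rw [Finset.sum_mul_sum]
  rw [Finset.sum_congr rfl fun z _ => this z, Finset.sum_comm]

theorem collapse (x : V) (F : V → V → ℤ) :
    ∑ z, ∑ w, (if x = z then F z w else 0) = ∑ w, F x w := by
  rw [Finset.sum_eq_single x]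
  · simp
  · intro b _ hb
    have : ¬ x = b := fun e => hb e.symm
    simp [this]
  · simp

theorem collapse2 (x : V) (F : V → V → ℤ) :
    ∑ z, ∑ w, (if x = w then F z w else 0) = ∑ z, F z x := by
  refine Finset.sum_congr rfl fun z _ => ?_
  simp

theorem pair_count (R : SimpleGraph V) : P1 R ^ 2 = P22 R + 4 * P2 R + 2 * P1 R := by
  have hA : ∑ x, ∑ y, ∑ z, ∑ w, (if x = z then (if y ≠ w then ai R x y * ai R z w else 0) else 0)
      = P2 R := by
    rw [P2_eq]
    rw [Finset.sum_congr rfl fun x _ => Finset.sum_congr rfl fun y _ =>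
      collapse x (fun z w => if y ≠ w then ai R x y * ai R z w else 0)]
    rw [Finset.sum_comm]
    refine Finset.sum_congr rfl fun y _ => Finset.sum_congr rfl fun x _ =>
      Finset.sum_congr rfl fun w _ => ?_
    rw [ai_comm R x y]
  have hB : ∑ x, ∑ y, ∑ z, ∑ w, (if x = w then (if y ≠ z then ai R x y * ai R z w else 0) else 0)
      = P2 R := by
    rw [P2_eq]
    rw [Finset.sum_congr rfl fun x _ => Finset.sum_congr rfl fun y _ =>
      collapse2 x (fun z w => if y ≠ z then ai R x y * ai R z w else 0)]
    rw [Finset.sum_comm]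
    refine Finset.sum_congr rfl fun y _ => Finset.sum_congr rfl fun x _ =>
      Finset.sum_congr rfl fun w _ => ?_
    rw [ai_comm R x y, ai_comm R w x]
  have hC : ∑ x, ∑ y, ∑ z, ∑ w, (if y = z then (if x ≠ w then ai R x y * ai R z w else 0) else 0)
      = P2 R := by
    rw [P2_eq]
    exact Finset.sum_congr rfl fun x _ => Finset.sum_congr rfl fun y _ =>
      collapse y (fun z w => if x ≠ w then ai R x y * ai R z w else 0)
  have hD : ∑ x, ∑ y, ∑ z, ∑ w, (if y = w then (if x ≠ z then ai R x y * ai R z w else 0) else 0)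
      = P2 R := by
    rw [P2_eq]
    rw [Finset.sum_congr rfl fun x _ => Finset.sum_congr rfl fun y _ =>
      collapse2 y (fun z w => if x ≠ z then ai R x y * ai R z w else 0)]
    refine Finset.sum_congr rfl fun x _ => Finset.sum_congr rfl fun y _ =>
      Finset.sum_congr rfl fun z _ => ?_
    rw [ai_comm R z y]
  have hsq : ∀ x y, ai R x y * ai R x y = ai R x y := fun x y => by
    unfold ai; split_ifs <;> simp
  have hE : ∑ x, ∑ y, ∑ z, ∑ w, (if x = z then (if y = w then ai R x y * ai R z w else 0) else 0)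
      = P1 R := by
    rw [P1_eq]
    rw [Finset.sum_congr rfl fun x _ => Finset.sum_congr rfl fun y _ =>
      collapse x (fun z w => if y = w then ai R x y * ai R z w else 0)]
    refine Finset.sum_congr rfl fun x _ => Finset.sum_congr rfl fun y _ => ?_
    simp [hsq]
  have hF : ∑ x, ∑ y, ∑ z, ∑ w, (if x = w then (if y = z then ai R x y * ai R z w else 0) else 0)
      = P1 R := by
    rw [P1_eq]
    rw [Finset.sum_congr rfl fun x _ => Finset.sum_congr rfl fun y _ =>
      collapse2 x (fun z w => if y = z then ai R x y * ai R z w else 0)]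
    refine Finset.sum_congr rfl fun x _ => Finset.sum_congr rfl fun y _ => ?_
    simp [ai_comm R y x, hsq]
  have key : P1 R ^ 2 = P22 R +
      (∑ x, ∑ y, ∑ z, ∑ w, (if x = z then (if y ≠ w then ai R x y * ai R z w else 0) else 0)) +
      (∑ x, ∑ y, ∑ z, ∑ w, (if x = w then (if y ≠ z then ai R x y * ai R z w else 0) else 0)) +
      (∑ x, ∑ y, ∑ z, ∑ w, (if y = z then (if x ≠ w then ai R x y * ai R z w else 0) else 0)) +
      (∑ x, ∑ y, ∑ z, ∑ w, (if y = w then (if x ≠ z then ai R x y * ai R z w else 0) else 0)) +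
      (∑ x, ∑ y, ∑ z, ∑ w, (if x = z then (if y = w then ai R x y * ai R z w else 0) else 0)) +
      (∑ x, ∑ y, ∑ z, ∑ w, (if x = w then (if y = z then ai R x y * ai R z w else 0) else 0)) := by
    rw [P1_sq, P22_eq]
    simp only [← Finset.sum_add_distrib]
    refine Finset.sum_congr rfl fun x _ => Finset.sum_congr rfl fun y _ =>
      Finset.sum_congr rfl fun z _ => Finset.sum_congr rfl fun w _ => ?_
    by_cases hxy : x = y
    · subst hxy; simp [ai_self]
    by_cases hzw : z = w
    · subst hzw; simp [ai_self]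
    by_cases h1 : x = z
    · subst h1
      have h2 : ¬ y = x := fun e => hxy e.symm
      by_cases h3 : y = w
      · subst h3
        simp [hxy, h2]
      · simp [hzw, h2, h3]
    · by_cases h2 : x = w
      · subst h2
        by_cases h3 : y = z
        · subst h3
          have h4 : ¬ y = x := fun e => hxy e.symm
          simp [hxy, h4]
        · have h4 : ¬ y = x := fun e => hxy e.symm
          simp [h1, h3, h4]
      · by_cases h3 : y = z
        · subst h3
          simp [h1, h2, hzw]
        · by_cases h4 : y = w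
          · subst h4
            simp [h1, h2, h3]
          · simp [h1, h2, h3, h4]
  rw [key, hA, hB, hC, hD, hE, hF]
  ring

end

end Frust
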