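import Mathlib
import Pool.Agent.Helper31.Fr.Pairs

open Finset Function

namespace Frust

section
variable {V : Type} [Fintype V] [DecidableEq V]
variable {α : Type} [Fintype α] [DecidableEq α] (σ : Equiv.Perm α)

theorem P22_nonneg (R : SimpleGraph V) : 0 ≤ P22 R :=
  Finset.sum_nonneg fun _ _ => mul_nonneg (ai_nonneg _ _ _) (ai_nonneg _ _ _)

theorem desc2 {n k : ℕ} (hk : 3 ≤ k) (hn : 3 ≤ n) :
    (((n - 2).descFactorial (k - 2) : ℕ) : ℤ) =
      ((n : ℤ) - 2) * (((n - 3).descFactorial (k - 3) : ℕ) : ℤ) := by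
  obtain ⟨a, rfl⟩ : ∃ a, k = a + 3 := ⟨k - 3, by omega⟩
  obtain ⟨b, rfl⟩ : ∃ b, n = b + 3 := ⟨n - 3, by omega⟩
  have e1 : b + 3 - 2 = b + 1 := by omega
  have e2 : a + 3 - 2 = a + 1 := by omega
  have e3 : b + 3 - 3 = b := by omega
  have e4 : a + 3 - 3 = a := by omega
  rw [e1, e2, e3, e4, Nat.succ_descFactorial_succ]
  push_cast
  ring

theorem NN_lower' (R : SimpleGraph V) (h1 : ∀ i, σ i ≠ i) (h2 : ∀ i, σ (σ i) ≠ i)
    (hk : 3 ≤ Fintype.card α) (hn : 2 * Fintype.card α ≤ Fintype.card V) {m : ℤ}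
    (hm : P1 R = 2 * m) :
    2 * (Fintype.card α : ℤ) *
      (((Fintype.card V - 3).descFactorial (Fintype.card α - 3) : ℕ) : ℤ) *
      (m * ((Fintype.card V : ℤ) - 1 - m)) ≤ NN σ R := by
  refine le_trans ?_ (NN_lower σ R h1 h2)
  set n := Fintype.card V with hn'
  set k := Fintype.card α with hk'
  have hpc := pair_count R
  have h22 := P22_nonneg R
  have hD2 := desc2 (n := n) (k := k) hk (by omega)
  rw [hD2]
  set D3 : ℤ := (((n - 3).descFactorial (k - 3) : ℕ) : ℤ) with hD3
  have hkey : 4 * (((k : ℤ) - 3) *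
        ((((n - 4).descFactorial (k - 4) : ℕ) : ℤ) * P22 R)) ≤ 2 * (D3 * P22 R) := by
    rcases Nat.eq_or_lt_of_le hk with h | h
    · have h3 : (k : ℤ) = 3 := by omega
      have hD3nn : 0 ≤ D3 := by rw [hD3]; positivity
      rw [h3]
      have : 0 ≤ D3 * P22 R := mul_nonneg hD3nn h22
      linarith
    · have hD4 : D3 = ((n : ℤ) - 3) * (((n - 4).descFactorial (k - 4) : ℕ) : ℤ) := by
        rw [hD3]
        obtain ⟨a, ha⟩ : ∃ a, k = a + 4 := ⟨k - 4, by omega⟩
        obtain ⟨b, hb⟩ : ∃ b, n = b + 4 := ⟨n - 4, by omega⟩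
        rw [ha, hb]
        have e1 : b + 4 - 3 = b + 1 := by omega
        have e2 : a + 4 - 3 = a + 1 := by omega
        have e3 : b + 4 - 4 = b := by omega
        have e4 : a + 4 - 4 = a := by omega
        rw [e1, e2, e3, e4, Nat.succ_descFactorial_succ]
        push_cast
        ring
      rw [hD4]
      set D4 : ℤ := (((n - 4).descFactorial (k - 4) : ℕ) : ℤ) with hD4'
      have hD4nn : 0 ≤ D4 := by rw [hD4']; positivity
      have hnn : 0 ≤ D4 * P22 R := mul_nonneg hD4nn h22
      have hcoef : 4 * ((k : ℤ) - 3) ≤ 2 * ((n : ℤ) - 3) := by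
        have : 2 * (k : ℤ) ≤ n := by exact_mod_cast hn
        linarith
      nlinarith [mul_le_mul_of_nonneg_right hcoef hnn]
  have hkpos : (0 : ℤ) ≤ k := by positivity
  have hfin : 2 * (D3 * (m * ((n : ℤ) - 1 - m))) ≤ (((n : ℤ) - 2) * D3 * P1 R -
      2 * (D3 * P2 R) - ((k : ℤ) - 3) *
        ((((n - 4).descFactorial (k - 4) : ℕ) : ℤ) * P22 R)) := by
    have h4P2 : 4 * (D3 * P2 R) = D3 * (P1 R ^ 2 - P22 R - 2 * P1 R) := by
      rw [hpc]; ring
    rw [hm] at h4P2 ⊢
    nlinarith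
  calc 2 * (k : ℤ) * D3 * (m * ((n : ℤ) - 1 - m)) = (k : ℤ) * (2 * (D3 * (m * ((n : ℤ) - 1 - m)))) := by
        ring
    _ ≤ _ := mul_le_mul_of_nonneg_left hfin hkpos

end

section star

def zc {n : ℕ} (x : Fin n) : ZMod 2 := if x.val = 0 then 1 else 0
def lf {n : ℕ} (s : ℕ) (x : Fin n) : ZMod 2 := if 1 ≤ x.val ∧ x.val ≤ s then 1 else 0
def Li {n : ℕ} (s : ℕ) (x : Fin n) : ℤ := if 1 ≤ x.val ∧ x.val ≤ s then 1 else 0
def Mi {n : ℕ} (s : ℕ) (x : Fin n) : ℤ := if s < x.val then 1 else 0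
def Zi {n : ℕ} (x : Fin n) : ℤ := if x.val = 0 then 1 else 0

theorem az_star {n s : ℕ} (x y : Fin n) :
    az (star n s) x y = zc x * lf s y + zc y * lf s x := by
  unfold az zc lf star
  simp only
  by_cases hx : x.val = 0
  · by_cases hy : y.val = 0
    · simp [hx, hy]
    · have h1 : 1 ≤ y.val := by omega
      have h2 : ¬ (1 ≤ x.val) := by omega
      simp only [hx, hy]
      simp
  · by_cases hy : y.val = 0
    · simp only [hx, hy]
      simp
    · simp [hx, hy]

theorem ind_sum_le {ι : Type} (s : Finset ι) (f : ι → ZMod 2) :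
    ind (∑ i ∈ s, f i) ≤ ∑ i ∈ s, ind (f i) := by
  classical
  induction s using Finset.induction_on with
  | empty => simp [ind]
  | insert a s ha ih =>
    rw [Finset.sum_insert ha, Finset.sum_insert ha]
    exact le_trans (ind_add_le _ _) (by linarith)

theorem par_star {α : Type} [Fintype α] [DecidableEq α] (σ : Equiv.Perm α) {n s : ℕ}
    (v : α → Fin n) :
    par σ (star n s) v = ∑ i, zc (v (σ i)) * (lf s (v i) + lf s (v (σ (σ i)))) := by
  unfold par
  simp only [az_star]
  rw [Finset.sum_add_distrib]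
  rw [← Equiv.sum_comp σ (fun i => zc (v i) * lf s (v (σ i)))]
  rw [← Finset.sum_add_distrib]
  refine Finset.sum_congr rfl fun i _ => ?_
  ring

theorem sum_Li {n s : ℕ} (hs : s < n) : ∑ x : Fin n, Li s x = s := by
  unfold Li
  rw [Fin.sum_univ_eq_sum_range (fun i => if 1 ≤ i ∧ i ≤ s then (1 : ℤ) else 0) n]
  rw [← Finset.sum_filter, Finset.sum_const, nsmul_eq_mul, mul_one]
  have : (Finset.range n).filter (fun i => 1 ≤ i ∧ i ≤ s) = Finset.Icc 1 s := by
    ext i; simp only [Finset.mem_filter, Finset.mem_range, Finset.mem_Icc]; omega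
  rw [this]; simp

theorem sum_Mi {n s : ℕ} (hs : s < n) : ∑ x : Fin n, Mi s x = (n : ℤ) - 1 - s := by
  unfold Mi
  rw [Fin.sum_univ_eq_sum_range (fun i => if s < i then (1 : ℤ) else 0) n]
  rw [← Finset.sum_filter, Finset.sum_const, nsmul_eq_mul, mul_one]
  have : (Finset.range n).filter (fun i => s < i) = Finset.Ico (s + 1) n := by
    ext i; simp only [Finset.mem_filter, Finset.mem_range, Finset.mem_Ico]; omega
  rw [this, Nat.card_Ico]
  omega

theorem sum_Zi {n : ℕ} (hn : 0 < n) : ∑ x : Fin n, Zi x = 1 := by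
  unfold Zi
  rw [Fin.sum_univ_eq_sum_range (fun i => if i = 0 then (1 : ℤ) else 0) n]
  rw [Finset.sum_ite_eq']
  simp [hn]

theorem star_upper {α : Type} [Fintype α] [DecidableEq α] (σ : Equiv.Perm α)
    (h1 : ∀ i, σ i ≠ i) (h2 : ∀ i, σ (σ i) ≠ i) {n s : ℕ} (hs : s < n) :
    NN σ (star n s) ≤ 2 * (Fintype.card α : ℤ) *
      (((n - 3).descFactorial (Fintype.card α - 3) : ℕ) : ℤ) * ((s : ℤ) * ((n : ℤ) - 1 - s)) := by
  have hT : ∑ w : Fin 3 ↪ Fin n, ind (zc (w 1) * (lf s (w 0) + lf s (w 2))) ≤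
      2 * ((s : ℤ) * ((n : ℤ) - 1 - s)) := by
    rw [sum_emb3 (fun x y z => ind (zc y * (lf s x + lf s z)))]
    have hb : ∀ x y z : Fin n, (if (x ≠ y ∧ x ≠ z ∧ y ≠ z) then
        ind (zc y * (lf s x + lf s z)) else 0) ≤
        Zi y * (Li s x * Mi s z + Mi s x * Li s z) := by
      intro x y z
      by_cases h : (x ≠ y ∧ x ≠ z ∧ y ≠ z)
      · rw [if_pos h]
        obtain ⟨hxy, hxz, hyz⟩ := h
        rw [Ne, Fin.ext_iff] at hxy hxz hyz
        unfold Zi zc
        by_cases hy : y.val = 0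
        · have hx1 : 1 ≤ x.val := by omega
          have hz1 : 1 ≤ z.val := by omega
          unfold Li Mi lf
          by_cases hx : x.val ≤ s
          · by_cases hz : z.val ≤ s
            · have hx' : ¬ (s < x.val) := by omega
              have hz' : ¬ (s < z.val) := by omega
              simp only [hy, hx1, hz1, hx, hz, hx', hz', and_self, if_true, if_false]
              decide
            · have hx' : ¬ (s < x.val) := by omega
              have hz' : (s < z.val) := by omega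
              simp [hy, hx1, hz1, hx, hz, hx', hz', ind]
          · by_cases hz : z.val ≤ s
            · have hx' : (s < x.val) := by omega
              have hz' : ¬ (s < z.val) := by omega
              simp [hy, hx1, hz1, hx, hz, hx', hz', ind]
            · have hx' : (s < x.val) := by omega
              have hz' : (s < z.val) := by omega
              simp [hy, hx1, hz1, hx, hz, hx', hz', ind]
        · simp [hy, ind]
      · rw [if_neg h]
        have e1 : 0 ≤ Zi y := by unfold Zi; split_ifs <;> simp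
        have e2 : 0 ≤ Li s x := by unfold Li; split_ifs <;> simp
        have e3 : 0 ≤ Li s z := by unfold Li; split_ifs <;> simp
        have e4 : 0 ≤ Mi s x := by unfold Mi; split_ifs <;> simp
        have e5 : 0 ≤ Mi s z := by unfold Mi; split_ifs <;> simp
        positivity
    calc _ ≤ ∑ x : Fin n, ∑ y : Fin n, ∑ z : Fin n,
          Zi y * (Li s x * Mi s z + Mi s x * Li s z) :=
          Finset.sum_le_sum fun x _ => Finset.sum_le_sum fun y _ =>
            Finset.sum_le_sum fun z _ => hb x y z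
      _ = 2 * ((s : ℤ) * ((n : ℤ) - 1 - s)) := by
          have e1 : ∀ x y : Fin n, ∑ z : Fin n, Zi y * (Li s x * Mi s z + Mi s x * Li s z) =
              Zi y * (Li s x * ((n : ℤ) - 1 - s) + Mi s x * s) := by
            intro x y
            rw [← Finset.mul_sum, Finset.sum_add_distrib, ← Finset.mul_sum, ← Finset.mul_sum,
              sum_Li hs, sum_Mi hs]
          simp only [e1]
          have e2 : ∀ x : Fin n, ∑ y : Fin n, Zi y * (Li s x * ((n : ℤ) - 1 - s) + Mi s x * s) =
              (Li s x * ((n : ℤ) - 1 - s) + Mi s x * s) := by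
            intro x
            rw [← Finset.sum_mul, sum_Zi (by omega), one_mul]
          simp only [e2]
          rw [Finset.sum_add_distrib, ← Finset.sum_mul, ← Finset.sum_mul, sum_Li hs, sum_Mi hs]
          ring
  unfold NN
  have hpt : ∀ v : α ↪ Fin n, ind (par σ (star n s) v) ≤
      ∑ i, ind (zc (v (σ i)) * (lf s (v i) + lf s (v (σ (σ i))))) := by
    intro v
    rw [par_star]
    exact ind_sum_le _ _
  have hE : ∀ i, ∑ v : α ↪ Fin n, ind (zc (v (σ i)) * (lf s (v i) + lf s (v (σ (σ i))))) =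
      (((n - 3).descFactorial (Fintype.card α - 3) : ℕ) : ℤ) *
        ∑ w : Fin 3 ↪ Fin n, ind (zc (w 1) * (lf s (w 0) + lf s (w 2))) := by
    intro i
    have hφ : Injective ![i, σ i, σ (σ i)] := by
      rw [inj3]; exact ⟨fun e => h1 _ e.symm, fun e => h2 _ e.symm, fun e => h1 _ e.symm⟩
    have := sum_ext (V := Fin n) (⟨![i, σ i, σ (σ i)], hφ⟩ : Fin 3 ↪ α)
      (fun w => ind (zc (w 1) * (lf s (w 0) + lf s (w 2))))
    rw [Fintype.card_fin, Fintype.card_fin] at this
    exact this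
  calc ∑ v : α ↪ Fin n, ind (par σ (star n s) v) ≤
        ∑ v : α ↪ Fin n, ∑ i, ind (zc (v (σ i)) * (lf s (v i) + lf s (v (σ (σ i))))) :=
        Finset.sum_le_sum fun v _ => hpt v
    _ = ∑ i, ∑ v : α ↪ Fin n, ind (zc (v (σ i)) * (lf s (v i) + lf s (v (σ (σ i))))) :=
        Finset.sum_comm
    _ = (Fintype.card α : ℤ) * ((((n - 3).descFactorial (Fintype.card α - 3) : ℕ) : ℤ) *
        ∑ w : Fin 3 ↪ Fin n, ind (zc (w 1) * (lf s (w 0) + lf s (w 2)))) := by
        rw [Finset.sum_congr rfl fun i _ => hE i, Finset.sum_const, Finset.card_univ,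
          nsmul_eq_mul]
    _ ≤ (Fintype.card α : ℤ) * ((((n - 3).descFactorial (Fintype.card α - 3) : ℕ) : ℤ) *
        (2 * ((s : ℤ) * ((n : ℤ) - 1 - s)))) := by
        refine mul_le_mul_of_nonneg_left (mul_le_mul_of_nonneg_left hT (by positivity))
          (by positivity)
    _ = _ := by ring

end star

end Frust
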