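import Mathlib
import Pool.Agent.Helper31.Fr.Star

open Finset Function

namespace Frust

section
variable {V : Type} [Fintype V] [DecidableEq V]
variable {α : Type} [Fintype α] [DecidableEq α] (σ : Equiv.Perm α)

theorem two_zero (z : ZMod 2) : z + z = 0 := by
  revert z; decide

omit [Fintype V] [DecidableEq V] [DecidableEq α] in
theorem par_switch {G R : SimpleGraph V} (c : V → ZMod 2)
    (h : ∀ x y, az R x y = az G x y + (c x + c y)) (v : α → V) : par σ R v = par σ G v := by
  unfold par
  simp only [h]
  rw [Finset.sum_add_distrib, Finset.sum_add_distrib]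
  rw [Equiv.sum_comp σ (fun i => c (v i)), two_zero, add_zero]

theorem NN_switch {G R : SimpleGraph V} (c : V → ZMod 2)
    (h : ∀ x y, az R x y = az G x y + (c x + c y)) : NN σ R = NN σ G := by
  unfold NN
  refine Finset.sum_congr rfl fun v _ => ?_
  rw [par_switch σ c h]

omit [Fintype V] [DecidableEq V] in
theorem az_compl (G : SimpleGraph V) {x y : V} (h : x ≠ y) : az Gᶜ x y = az G x y + 1 := by
  unfold az
  by_cases hg : G.Adj x y
  · have h2 : ¬ Gᶜ.Adj x y := by rw [SimpleGraph.compl_adj]; exact fun h3 => h3.2 hg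
    rw [if_pos hg, if_neg h2]
    exact (two_zero 1).symm
  · have h2 : Gᶜ.Adj x y := by rw [SimpleGraph.compl_adj]; exact ⟨h, hg⟩
    rw [if_neg hg, if_pos h2, zero_add]

omit [Fintype V] [DecidableEq V] [DecidableEq α] in
theorem par_compl (G : SimpleGraph V) (h1 : ∀ i, σ i ≠ i) (v : α ↪ V) :
    par σ Gᶜ v = par σ G v + (Fintype.card α : ZMod 2) := by
  unfold par
  rw [Finset.sum_congr rfl fun i _ => az_compl G (x := v i) (y := v (σ i))
    (fun e => h1 i (v.injective e).symm)]
  rw [Finset.sum_add_distrib]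
  simp

theorem NN_compl_even (G : SimpleGraph V) (h1 : ∀ i, σ i ≠ i) (he : Even (Fintype.card α)) :
    NN σ Gᶜ = NN σ G := by
  unfold NN
  refine Finset.sum_congr rfl fun v _ => ?_
  rw [par_compl σ G h1]
  have : (Fintype.card α : ZMod 2) = 0 := by
    rw [ZMod.natCast_eq_zero_iff_even]; exact he
  rw [this, add_zero]

theorem NN_compl_odd (G : SimpleGraph V) (h1 : ∀ i, σ i ≠ i) (ho : Odd (Fintype.card α)) :
    NN σ G + NN σ Gᶜ = (((Fintype.card V).descFactorial (Fintype.card α) : ℕ) : ℤ) := by
  unfold NN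
  rw [← Finset.sum_add_distrib]
  have hp : ∀ v : α ↪ V, ind (par σ G v) + ind (par σ Gᶜ v) = 1 := by
    intro v
    rw [par_compl σ G h1]
    have : (Fintype.card α : ZMod 2) = 1 := by
      rw [ZMod.natCast_eq_one_iff_odd]; exact ho
    rw [this, ind_add_one]
  rw [Finset.sum_congr rfl fun v _ => hp v]
  rw [Finset.sum_const, Finset.card_univ, Fintype.card_embedding_eq]
  simp

theorem NN_upper (R : SimpleGraph V) (h1 : ∀ i, σ i ≠ i) :
    NN σ R ≤ (Fintype.card α : ℤ) *
      ((((Fintype.card V - 2).descFactorial (Fintype.card α - 2) : ℕ) : ℤ) * P1 R) := by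
  have hpt : ∀ v : α ↪ V, ind (par σ R v) ≤ ∑ i, ai R (v i) (v (σ i)) := by
    intro v
    unfold par
    refine le_trans (ind_sum_le _ _) (Finset.sum_le_sum fun i _ => ?_)
    rw [ai_eq_ind]
  refine le_trans (Finset.sum_le_sum fun v _ => hpt v) ?_
  rw [Finset.sum_comm, Finset.sum_congr rfl fun i _ => L1 σ R (h1 i), Finset.sum_const,
    Finset.card_univ, nsmul_eq_mul]

/-- parity of a 4-cycle -/
noncomputable def p4 (G : SimpleGraph V) (x y z w : V) : ZMod 2 :=
  az G x y + az G y z + az G z w + az G w x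

noncomputable def N4 (G : SimpleGraph V) : ℤ :=
  ∑ w : Fin 4 ↪ V, ind (p4 G (w 0) (w 1) (w 2) (w 3))

/-- embedding which replaces position p by none -/
def repl (p : α) : α ↪ Option α where
  toFun i := if i = p then none else some i
  inj' := by
    intro i j h
    by_cases hi : i = p
    · by_cases hj : j = p
      · rw [hi, hj]
      · simp [hi, hj] at h
    · by_cases hj : j = p
      · simp [hi, hj] at h
      · simpa [hi, hj] using h

theorem par_repl (G : SimpleGraph V) (h1 : ∀ i, σ i ≠ i) (h2 : ∀ i, σ (σ i) ≠ i) (p : α)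
    (u : Option α → V) :
    par σ G (fun i => u (some i)) + par σ G (fun i => u (repl p i)) =
      p4 G (u (some (σ.symm p))) (u (some p)) (u (some (σ p))) (u none) := by
  have hi3 : σ.symm p ≠ p := fun e => h1 p (by rw [Equiv.symm_apply_eq] at e; exact e.symm)
  have hi4 : σ p ≠ σ.symm p := fun e => h2 p (by rw [e]; simp)
  have hσs : σ (σ.symm p) = p := by simp
  unfold par
  rw [← Finset.sum_add_distrib]
  have hr : ∀ i, i ≠ p → (repl p i : Option α) = some i := by
    intro i hi; simp [repl, hi]
  have hrp : (repl p p : Option α) = none := by simp [repl]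
  rw [← Finset.sum_subset (Finset.subset_univ ({σ.symm p, p} : Finset α))]
  · rw [Finset.sum_insert (by rw [Finset.mem_singleton]; exact hi3), Finset.sum_singleton]
    beta_reduce
    rw [hr _ hi3, hσs, hrp, hr _ (h1 p)]
    unfold p4
    rw [az_comm G (u none) (u (some (σ p))), az_comm G (u none) (u (some (σ.symm p)))]
    ring
  · intro i _ hi
    rw [Finset.mem_insert, Finset.mem_singleton] at hi
    push Not at hi
    have hσi : σ i ≠ p := fun e => hi.1 (by rw [← e]; simp)
    beta_reduce
    rw [hr i hi.2, hr _ hσi]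
    exact two_zero _

theorem N4_le (G : SimpleGraph V) (h1 : ∀ i, σ i ≠ i) (h2 : ∀ i, σ (σ i) ≠ i) (p : α) :
    (((Fintype.card V - 4).descFactorial (Fintype.card α - 3) : ℕ) : ℤ) * N4 G ≤
      2 * (((Fintype.card V - Fintype.card α : ℕ) : ℤ) * NN σ G) := by
  have hi3 : σ.symm p ≠ p := fun e => h1 p (by rw [Equiv.symm_apply_eq] at e; exact e.symm)
  have hi4 : σ p ≠ σ.symm p := fun e => h2 p (by rw [e]; simp)
  have hφ : Injective ![some (σ.symm p), some p, some (σ p), none] := by
    rw [inj4]
    refine ⟨fun e => hi3 (Option.some_injective _ e), fun e => hi4 (Option.some_injective _ e).symm,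
      by simp, fun e => h1 p (Option.some_injective _ e).symm, by simp, by simp⟩
  have e4 := sum_ext (V := V) (⟨![some (σ.symm p), some p, some (σ p), none], hφ⟩ :
    Fin 4 ↪ Option α) (fun w => ind (p4 G (w 0) (w 1) (w 2) (w 3)))
  have ea := sum_ext (V := V) (Function.Embedding.some : α ↪ Option α) (fun w => ind (par σ G w))
  have eb := sum_ext (V := V) (repl p) (fun w => ind (par σ G w))
  rw [Fintype.card_option] at e4 ea eb
  rw [Fintype.card_fin] at e4
  have e5 : Fintype.card α + 1 - 4 = Fintype.card α - 3 := by omega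
  have e6 : Fintype.card α + 1 - Fintype.card α = 1 := by omega
  rw [e5] at e4
  rw [e6, Nat.descFactorial_one] at ea eb
  have hle : ∀ u : Option α ↪ V,
      ind (p4 G (u (some (σ.symm p))) (u (some p)) (u (some (σ p))) (u none)) ≤
      ind (par σ G (Function.Embedding.some.trans u : α ↪ V)) +
        ind (par σ G ((repl p).trans u : α ↪ V)) := by
    intro u
    rw [← par_repl σ G h1 h2 p u]
    exact ind_add_le _ _
  have hsum := Finset.sum_le_sum (s := (Finset.univ : Finset (Option α ↪ V))) fun u _ => hle u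
  rw [Finset.sum_add_distrib, ea, eb] at hsum
  unfold N4 NN
  rw [← e4]
  refine le_trans hsum (le_of_eq ?_)
  ring

end

end Frust
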