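import Mathlib
import Pool.Agent.Helper31.Fr.Switch

open Finset Function

namespace Frust

section
variable {V : Type} [Fintype V] [DecidableEq V]

/-- triangle parity -/
noncomputable def TT (G : SimpleGraph V) (x y z : V) : ZMod 2 := az G x y + az G y z + az G z x

noncomputable def HH (G : SimpleGraph V) (x y z : V) : ℤ :=
  if (y ≠ x ∧ z ≠ x ∧ y ≠ z) then ind (TT G x y z) else 0

noncomputable def HO (G : SimpleGraph V) (x y z : V) : ℤ :=
  if (y ≠ x ∧ z ≠ x ∧ y ≠ z) then 1 - ind (TT G x y z) else 0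

noncomputable def QQ (G : SimpleGraph V) (x : V) : ℤ := ∑ y, ∑ z, ∑ w, HH G x y z * HO G x y w

noncomputable def e1 (G : SimpleGraph V) (x : V) : ℤ := ∑ y, ∑ z, HH G x y z
noncomputable def e0 (G : SimpleGraph V) (x : V) : ℤ := ∑ y, ∑ z, HO G x y z

omit [Fintype V] in
theorem HH_nonneg (G : SimpleGraph V) (x y z : V) : 0 ≤ HH G x y z := by
  unfold HH; split_ifs
  · exact ind_nonneg _
  · exact le_rfl

omit [Fintype V] in
theorem HO_nonneg (G : SimpleGraph V) (x y z : V) : 0 ≤ HO G x y z := by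
  unfold HO; split_ifs
  · have := ind_le_one (TT G x y z); linarith
  · exact le_rfl

omit [Fintype V] [DecidableEq V] in
theorem TT_comm (G : SimpleGraph V) (x y z : V) : TT G x y z = TT G x z y := by
  unfold TT
  rw [az_comm G x y, az_comm G y z, az_comm G z x]
  ring

omit [Fintype V] in
theorem HH_comm (G : SimpleGraph V) (x y z : V) : HH G x y z = HH G x z y := by
  unfold HH
  rw [TT_comm G x y z]
  by_cases h : (y ≠ x ∧ z ≠ x ∧ y ≠ z)
  · rw [if_pos h, if_pos ⟨h.2.1, h.1, h.2.2.symm⟩]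
  · rw [if_neg h, if_neg (fun h2 => h ⟨h2.2.1, h2.1, h2.2.2.symm⟩)]

theorem ind_cases (z : ZMod 2) : (z = 0 ∧ ind z = 0) ∨ (z = 1 ∧ ind z = 1) := by
  revert z; decide

omit [Fintype V] in
/-- HH and HO are 0/1 valued and complementary -/
theorem HH_cases (G : SimpleGraph V) {x y z : V} (h1 : y ≠ x) (h2 : z ≠ x) (h3 : y ≠ z) :
    (HH G x y z = 1 ∧ HO G x y z = 0) ∨ (HH G x y z = 0 ∧ HO G x y z = 1) := by
  unfold HH HO
  rw [if_pos ⟨h1, h2, h3⟩, if_pos ⟨h1, h2, h3⟩]
  rcases ind_cases (TT G x y z) with ⟨_, h⟩ | ⟨_, h⟩ <;> rw [h] <;> simp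

omit [Fintype V] in
theorem HH_le_one (G : SimpleGraph V) (x y z : V) : HH G x y z ≤ 1 := by
  unfold HH; split_ifs
  · exact ind_le_one _
  · exact zero_le_one

omit [Fintype V] in
theorem HO_le_one (G : SimpleGraph V) (x y z : V) : HO G x y z ≤ 1 := by
  unfold HO; split_ifs
  · have := ind_nonneg (TT G x y z); linarith
  · exact zero_le_one

theorem sum_QQ_le (G : SimpleGraph V) : ∑ x, QQ G x ≤ N4 G := by
  unfold QQ N4
  rw [sum_emb4 (fun x y z w => ind (p4 G x y z w))]
  refine Finset.sum_le_sum fun x _ => ?_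
  rw [Finset.sum_comm]
  refine Finset.sum_le_sum fun z _ => Finset.sum_le_sum fun y _ => Finset.sum_le_sum fun w _ => ?_
  by_cases hc : (y ≠ x ∧ z ≠ x ∧ y ≠ z) ∧ (y ≠ x ∧ w ≠ x ∧ y ≠ w)
  · obtain ⟨ha, hb⟩ := hc
    rcases ind_cases (TT G x y z) with ⟨h1, h2⟩ | ⟨h1, h2⟩
    · have : HH G x y z = 0 := by unfold HH; rw [if_pos ha, h2]
      rw [this, zero_mul]
      split_ifs
      · exact ind_nonneg _
      · exact le_rfl
    · rcases ind_cases (TT G x y w) with ⟨h3, h4⟩ | ⟨h3, h4⟩
      · have hzw : z ≠ w := by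
          rintro rfl
          rw [h1] at h3
          exact absurd h3 (by decide)
        have hH : HH G x y z = 1 := by unfold HH; rw [if_pos ha, h2]
        have hO : HO G x y w = 1 := by unfold HO; rw [if_pos hb, h4]; ring
        rw [hH, hO, if_pos ⟨ha.2.1.symm, ha.1.symm, hb.2.1.symm, ha.2.2.symm, hzw, hb.2.2⟩]
        have hp : p4 G x z y w = 1 := by
          have : p4 G x z y w = TT G x y z + TT G x y w := by
            unfold p4 TT
            rw [az_comm G x z, az_comm G z y]
            have h0 := two_zero (az G x y)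
            linear_combination -h0
          rw [this, h1, h3, add_zero]
        rw [hp]
        decide
      · have : HO G x y w = 0 := by unfold HO; rw [if_pos hb, h4]; ring
        rw [this, mul_zero]
        split_ifs
        · exact ind_nonneg _
        · exact le_rfl
  · have : HH G x y z * HO G x y w = 0 := by
      rw [not_and_or] at hc
      rcases hc with h | h
      · have : HH G x y z = 0 := by unfold HH; rw [if_neg h]
        rw [this, zero_mul]
      · have : HO G x y w = 0 := by unfold HO; rw [if_neg h]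
        rw [this, mul_zero]
    rw [this]
    split_ifs
    · exact ind_nonneg _
    · exact le_rfl

theorem exists_small (G : SimpleGraph V) [Nonempty V] :
    ∃ x, (Fintype.card V : ℤ) * QQ G x ≤ N4 G := by
  have h := sum_QQ_le G
  have : ∃ x ∈ (Finset.univ : Finset V), (Fintype.card V : ℤ) * QQ G x ≤ N4 G := by
    refine Finset.exists_le_of_sum_le Finset.univ_nonempty ?_
    rw [← Finset.mul_sum, Finset.sum_const, Finset.card_univ, nsmul_eq_mul]
    exact mul_le_mul_of_nonneg_left h (by positivity)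
  obtain ⟨x, _, hx⟩ := this
  exact ⟨x, hx⟩

omit [Fintype V] in
theorem chain_pt (G : SimpleGraph V) (x a b c d y : V) :
    (if (y ≠ x ∧ y ≠ a ∧ y ≠ c) then (1 : ℤ) else 0) * (HH G x a b * HO G x c d) ≤
      HH G x a b * HO G x a y + HH G x y a * HO G x y c + HH G x c y * HO G x c d := by
  have n1 : 0 ≤ HH G x a b * HO G x a y := mul_nonneg (HH_nonneg _ _ _ _) (HO_nonneg _ _ _ _)
  have n2 : 0 ≤ HH G x y a * HO G x y c := mul_nonneg (HH_nonneg _ _ _ _) (HO_nonneg _ _ _ _)
  have n3 : 0 ≤ HH G x c y * HO G x c d := mul_nonneg (HH_nonneg _ _ _ _) (HO_nonneg _ _ _ _)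
  by_cases hy : (y ≠ x ∧ y ≠ a ∧ y ≠ c)
  · rw [if_pos hy, one_mul]
    by_cases hab : (a ≠ x ∧ b ≠ x ∧ a ≠ b)
    · by_cases hcd : (c ≠ x ∧ d ≠ x ∧ c ≠ d)
      · rcases HH_cases G hab.1 hab.2.1 hab.2.2 with ⟨h1, _⟩ | ⟨h1, _⟩
        · rcases HH_cases G hcd.1 hcd.2.1 hcd.2.2 with ⟨_, h2⟩ | ⟨_, h2⟩
          · rw [h2, mul_zero]
            rw [h2, mul_zero] at n3
            linarith
          · rcases HH_cases G hab.1 hy.1 hy.2.1.symm with ⟨h3, h3'⟩ | ⟨h3, h3'⟩
            · have h3'' : HH G x y a = 1 := by rw [HH_comm]; exact h3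
              rcases HH_cases G hy.1 hcd.1 hy.2.2 with ⟨h4, h4'⟩ | ⟨h4, h4'⟩
              · have h4'' : HH G x c y = 1 := by rw [HH_comm]; exact h4
                rw [h1, h2, h3'', h4'']
                rw [h1] at n1
                rw [h3''] at n2
                linarith
              · rw [h1, h2, h3'', h4']
                rw [h1] at n1
                rw [h2] at n3
                linarith
            · rw [h1, h2, h3']
              rw [h2] at n3
              linarith
        · rw [h1, zero_mul]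
          linarith
      · have : HO G x c d = 0 := by unfold HO; rw [if_neg hcd]
        rw [this, mul_zero, mul_zero]
        linarith
    · have : HH G x a b = 0 := by unfold HH; rw [if_neg hab]
      rw [this, zero_mul, zero_mul]
      linarith
  · rw [if_neg hy, zero_mul]
    linarith

theorem count_avoid (x a c : V) :
    (Fintype.card V : ℤ) - 3 ≤ ∑ y, (if (y ≠ x ∧ y ≠ a ∧ y ≠ c) then (1 : ℤ) else 0) := by
  have hpt : ∀ y : V, 1 - ((if y = x then (1 : ℤ) else 0) + (if y = a then (1 : ℤ) else 0) +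
      (if y = c then (1 : ℤ) else 0)) ≤ (if (y ≠ x ∧ y ≠ a ∧ y ≠ c) then (1 : ℤ) else 0) := by
    intro y
    by_cases h1 : y = x <;> by_cases h2 : y = a <;> by_cases h3 : y = c <;> simp [h1, h2, h3] <;>
      split_ifs <;> norm_num
  have hs := Finset.sum_le_sum (s := (Finset.univ : Finset V)) fun y _ => hpt y
  refine le_trans (le_of_eq ?_) hs
  rw [Finset.sum_sub_distrib, Finset.sum_add_distrib, Finset.sum_add_distrib]
  simp

theorem chain (G : SimpleGraph V) (x : V) :
    ((Fintype.card V : ℤ) - 3) * (e1 G x * e0 G x) ≤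
      3 * ((Fintype.card V : ℤ) ^ 2 * QQ G x) := by
  have hs : ∑ a, ∑ b, ∑ c, ∑ d, ∑ y,
      (if (y ≠ x ∧ y ≠ a ∧ y ≠ c) then (1 : ℤ) else 0) * (HH G x a b * HO G x c d) ≤
      ∑ a, ∑ b, ∑ c, ∑ d, ∑ y,
      (HH G x a b * HO G x a y + HH G x y a * HO G x y c + HH G x c y * HO G x c d) :=
    Finset.sum_le_sum fun a _ => Finset.sum_le_sum fun b _ => Finset.sum_le_sum fun c _ =>
      Finset.sum_le_sum fun d _ => Finset.sum_le_sum fun y _ => chain_pt G x a b c d y
  have hl : ((Fintype.card V : ℤ) - 3) * (e1 G x * e0 G x) ≤ ∑ a, ∑ b, ∑ c, ∑ d, ∑ y,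
      (if (y ≠ x ∧ y ≠ a ∧ y ≠ c) then (1 : ℤ) else 0) * (HH G x a b * HO G x c d) := by
    have e : ((Fintype.card V : ℤ) - 3) * (e1 G x * e0 G x) = ∑ a, ∑ b, ∑ c, ∑ d,
        ((Fintype.card V : ℤ) - 3) * (HH G x a b * HO G x c d) := by
      unfold e1 e0
      rw [Finset.sum_mul, Finset.mul_sum]
      refine Finset.sum_congr rfl fun a _ => ?_
      rw [Finset.sum_mul, Finset.mul_sum]
      refine Finset.sum_congr rfl fun b _ => ?_
      rw [Finset.mul_sum, Finset.mul_sum]
      refine Finset.sum_congr rfl fun c _ => ?_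
      rw [Finset.mul_sum, Finset.mul_sum]
    rw [e]
    refine Finset.sum_le_sum fun a _ => Finset.sum_le_sum fun b _ => Finset.sum_le_sum fun c _ =>
      Finset.sum_le_sum fun d _ => ?_
    rw [← Finset.sum_mul]
    exact mul_le_mul_of_nonneg_right (count_avoid x a c)
      (mul_nonneg (HH_nonneg _ _ _ _) (HO_nonneg _ _ _ _))
  have hr1 : ∑ a, ∑ b, ∑ _c : V, ∑ _d : V, ∑ y, HH G x a b * HO G x a y =
      (Fintype.card V : ℤ) ^ 2 * QQ G x := by
    unfold QQ
    rw [Finset.mul_sum]
    refine Finset.sum_congr rfl fun a _ => ?_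
    rw [Finset.mul_sum]
    refine Finset.sum_congr rfl fun b _ => ?_
    rw [Finset.sum_const, Finset.sum_const, Finset.card_univ, smul_smul, nsmul_eq_mul]
    push_cast
    ring
  have hr2 : ∑ a, ∑ _b : V, ∑ c, ∑ _d : V, ∑ y, HH G x y a * HO G x y c =
      (Fintype.card V : ℤ) ^ 2 * QQ G x := by
    unfold QQ
    have e2 : ∀ a : V, ∑ _b : V, ∑ c, ∑ _d : V, ∑ y, HH G x y a * HO G x y c =
        (Fintype.card V : ℤ) ^ 2 * ∑ c, ∑ y, HH G x y a * HO G x y c := by
      intro a
      rw [Finset.sum_const, Finset.card_univ, nsmul_eq_mul, Finset.mul_sum, Finset.mul_sum]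
      refine Finset.sum_congr rfl fun c _ => ?_
      rw [Finset.sum_const, Finset.card_univ, nsmul_eq_mul]
      ring
    rw [Finset.sum_congr rfl fun a _ => e2 a, ← Finset.mul_sum]
    congr 1
    rw [Finset.sum_congr rfl fun a _ => Finset.sum_comm (s := (Finset.univ : Finset V))
      (t := (Finset.univ : Finset V)) (f := fun c y => HH G x y a * HO G x y c)]
    rw [Finset.sum_comm]
  have hr3 : ∑ _a : V, ∑ _b : V, ∑ c, ∑ d, ∑ y, HH G x c y * HO G x c d =
      (Fintype.card V : ℤ) ^ 2 * QQ G x := by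
    unfold QQ
    rw [Finset.sum_const, Finset.sum_const, Finset.card_univ, smul_smul, nsmul_eq_mul]
    push_cast
    rw [sq]
    congr 1
    refine Finset.sum_congr rfl fun c _ => ?_
    rw [Finset.sum_comm]
  refine le_trans hl (le_trans hs (le_of_eq ?_))
  simp only [Finset.sum_add_distrib]
  rw [hr1, hr2, hr3]
  ring

theorem e_sum (G : SimpleGraph V) (x : V) :
    (Fintype.card V : ℤ) ^ 2 - 3 * (Fintype.card V : ℤ) ≤ e1 G x + e0 G x := by
  unfold e1 e0
  rw [← Finset.sum_add_distrib]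
  have hpt : ∀ y z : V, 1 - ((if y = x then (1 : ℤ) else 0) + (if z = x then (1 : ℤ) else 0) +
      (if y = z then (1 : ℤ) else 0)) ≤ HH G x y z + HO G x y z := by
    intro y z
    by_cases h : (y ≠ x ∧ z ≠ x ∧ y ≠ z)
    · unfold HH HO
      rw [if_pos h, if_pos h]
      simp [h.1, h.2.1, h.2.2]
    · unfold HH HO
      rw [if_neg h, if_neg h]
      by_cases h1 : y = x
      · simp only [h1, if_true]
        split_ifs <;> norm_num
      · by_cases h2 : z = x
        · simp only [h2, if_true]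
          split_ifs <;> norm_num
        · have h3 : y = z := by
            by_contra h3
            exact h ⟨h1, h2, h3⟩
          simp only [h3, if_true]
          split_ifs <;> norm_num
  have hs := Finset.sum_le_sum (s := (Finset.univ : Finset V)) fun y _ =>
    Finset.sum_le_sum (s := (Finset.univ : Finset V)) fun z _ => hpt y z
  refine le_trans (le_of_eq ?_) (le_trans hs (le_of_eq ?_))
  · simp only [Finset.sum_sub_distrib, Finset.sum_add_distrib]
    simp
    ring
  · refine Finset.sum_congr rfl fun y _ => ?_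
    rw [Finset.sum_add_distrib]

/-- if N4 is at most C n (n-3) then at some vertex e1 or e0 is at most 12 C -/
theorem structure_thm (G : SimpleGraph V) {C : ℤ} (hC : 0 ≤ C) (hn : 6 ≤ Fintype.card V)
    (h : N4 G ≤ C * ((Fintype.card V : ℤ) * ((Fintype.card V : ℤ) - 3))) :
    ∃ x, e1 G x ≤ 12 * C ∨ e0 G x ≤ 12 * C := by
  have hne : Nonempty V := Fintype.card_pos_iff.mp (by omega)
  obtain ⟨x, hx⟩ := exists_small G
  refine ⟨x, ?_⟩
  have hn' : (6 : ℤ) ≤ (Fintype.card V : ℤ) := by exact_mod_cast hn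
  have hch := chain G x
  have hes := e_sum G x
  set n : ℤ := (Fintype.card V : ℤ) with hn''
  have hQ : QQ G x ≤ C * (n - 3) := by
    have h1 : n * QQ G x ≤ n * (C * (n - 3)) := le_trans hx (le_trans h (le_of_eq (by ring)))
    exact le_of_mul_le_mul_left h1 (by linarith)
  have hprod : e1 G x * e0 G x ≤ 3 * (n ^ 2 * C) := by
    have h1 : (n - 3) * (e1 G x * e0 G x) ≤ (n - 3) * (3 * (n ^ 2 * C)) := by
      refine le_trans hch ?_
      have := mul_le_mul_of_nonneg_left hQ (sq_nonneg n)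
      nlinarith
    exact le_of_mul_le_mul_left h1 (by linarith)
  by_contra hcon
  push Not at hcon
  obtain ⟨ha, hb⟩ := hcon
  have hsum : n ^ 2 ≤ 2 * (e1 G x + e0 G x) := by nlinarith
  rcases le_total (e1 G x) (e0 G x) with hle | hle
  · have h1 : n ^ 2 ≤ 4 * e0 G x := by linarith
    have h2 : 12 * C * n ^ 2 < 4 * (e1 G x * e0 G x) := by
      have h0 : 0 < n ^ 2 := by positivity
      have h3 : 12 * C * n ^ 2 < e1 G x * n ^ 2 := mul_lt_mul_of_pos_right ha h0
      have h4 : e1 G x * n ^ 2 ≤ e1 G x * (4 * e0 G x) :=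
        mul_le_mul_of_nonneg_left h1 (by linarith)
      linarith
    nlinarith
  · have h1 : n ^ 2 ≤ 4 * e1 G x := by linarith
    have h2 : 12 * C * n ^ 2 < 4 * (e1 G x * e0 G x) := by
      have h0 : 0 < n ^ 2 := by positivity
      have h3 : 12 * C * n ^ 2 < e0 G x * n ^ 2 := mul_lt_mul_of_pos_right hb h0
      have h4 : e0 G x * n ^ 2 ≤ e0 G x * (4 * e1 G x) :=
        mul_le_mul_of_nonneg_left h1 (by linarith)
      linarith
    nlinarith

end

end Frust
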