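import Mathlib
import Pool.Agent.Helper31.Fr.Struct

open Finset Function

namespace Frust

section
variable {V : Type} [Fintype V] [DecidableEq V]

open Classical in
noncomputable def cc (A : Set V) (x : V) : ZMod 2 := if x ∈ A then 1 else 0

omit [Fintype V] [DecidableEq V] in
theorem az_cb (A : Set V) (x y : V) : az (completeBip A) x y = cc A x + cc A y := by
  unfold az cc completeBip
  simp only
  by_cases hx : x ∈ A <;> by_cases hy : y ∈ A <;> simp [hx, hy]
  exact (two_zero 1).symm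

omit [Fintype V] [DecidableEq V] in
theorem az_symmDiff (G H : SimpleGraph V) (x y : V) :
    az (symmDiff G H) x y = az G x y + az H x y := by
  have hadj : (symmDiff G H).Adj x y ↔ ((G.Adj x y ∧ ¬ H.Adj x y) ∨ (H.Adj x y ∧ ¬ G.Adj x y)) := by
    rw [symmDiff_def, SimpleGraph.sup_adj, SimpleGraph.sdiff_adj, SimpleGraph.sdiff_adj]
  by_cases hx : G.Adj x y
  · by_cases hy : H.Adj x y
    · have hs : ¬ (symmDiff G H).Adj x y := by rw [hadj]; tauto
      simp only [az, hx, hy, hs, if_true, if_false]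
      exact (two_zero 1).symm
    · have hs : (symmDiff G H).Adj x y := by rw [hadj]; tauto
      simp [az, hx, hy, hs]
  · by_cases hy : H.Adj x y
    · have hs : (symmDiff G H).Adj x y := by rw [hadj]; tauto
      simp [az, hx, hy, hs]
    · have hs : ¬ (symmDiff G H).Adj x y := by rw [hadj]; tauto
      simp [az, hx, hy, hs]

omit [Fintype V] [DecidableEq V] in
theorem edgeSet_symmDiff (G H : SimpleGraph V) :
    (symmDiff G H).edgeSet = symmDiff G.edgeSet H.edgeSet := by
  rw [symmDiff_def, symmDiff_def, SimpleGraph.edgeSet_sup, SimpleGraph.edgeSet_sdiff,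
    SimpleGraph.edgeSet_sdiff]
  rfl

theorem P1_eq_edges (R : SimpleGraph V) : P1 R = 2 * (R.edgeSet.ncard : ℤ) := by
  classical
  rw [P1_eq]
  have h1 : ∀ x, ∑ y, ai R x y = (R.degree x : ℤ) := by
    intro x
    unfold ai
    rw [← Finset.sum_filter, Finset.sum_const, nsmul_eq_mul, mul_one]
    congr 1
    rw [← SimpleGraph.card_neighborFinset_eq_degree]
    congr 1
    ext y
    simp
  rw [Finset.sum_congr rfl fun x _ => h1 x]
  have h2 := R.sum_degrees_eq_twice_card_edges
  have h3 : R.edgeSet.ncard = R.edgeFinset.card := by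
    rw [Set.ncard_eq_toFinset_card', SimpleGraph.edgeFinset]
  rw [h3]
  exact_mod_cast h2

theorem P1_le_e1 (G : SimpleGraph V) (x : V) :
    P1 (symmDiff G (completeBip {y | G.Adj x y})) ≤ e1 G x := by
  rw [P1_eq]
  unfold e1
  refine Finset.sum_le_sum fun y _ => Finset.sum_le_sum fun z _ => ?_
  have hcc : ∀ y, cc {y | G.Adj x y} y = az G x y := by
    intro y; unfold cc az; simp
  rw [ai_eq_ind, az_symmDiff, az_cb, hcc, hcc]
  unfold HH
  by_cases h : (y ≠ x ∧ z ≠ x ∧ y ≠ z)
  · rw [if_pos h]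
    unfold TT
    have e : az G y z + (az G x y + az G x z) = az G x y + az G y z + az G z x := by
      rw [az_comm G z x]; ring
    rw [e]
  · rw [if_neg h]
    have : az G y z + (az G x y + az G x z) = 0 := by
      by_cases h1 : y = x
      · rw [h1, az_self, zero_add]; exact two_zero _
      · by_cases h2 : z = x
        · rw [h2, az_self, add_zero, az_comm]; exact two_zero _
        · have h3 : y = z := by
            by_contra h3
            exact h ⟨h1, h2, h3⟩
          rw [h3, az_self, zero_add]; exact two_zero _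
    rw [this]
    decide

theorem e0_eq_e1_compl (G : SimpleGraph V) (x : V) : e0 G x = e1 Gᶜ x := by
  unfold e0 e1
  refine Finset.sum_congr rfl fun y _ => Finset.sum_congr rfl fun z _ => ?_
  unfold HO HH
  by_cases h : (y ≠ x ∧ z ≠ x ∧ y ≠ z)
  · rw [if_pos h, if_pos h]
    have : TT Gᶜ x y z = TT G x y z + 1 := by
      unfold TT
      rw [az_compl G h.1.symm, az_compl G h.2.2, az_compl G h.2.1]
      have h0 := two_zero 1
      linear_combination h0
    rw [this]
    have := ind_add_one (TT G x y z)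
    linarith
  · rw [if_neg h, if_neg h]

/-- main numeric step: near bipartite graph below the star is within t flips -/
theorem near_case {α : Type} [Fintype α] [DecidableEq α] (σ : Equiv.Perm α)
    (h1 : ∀ i, σ i ≠ i) (h2 : ∀ i, σ (σ i) ≠ i) (hk : 3 ≤ Fintype.card α) {n : ℕ} (s : ℕ)
    (hn : 100 * Fintype.card α ^ 2 * s ≤ n) (hs : 1 ≤ s) (G : SimpleGraph (Fin n))
    (hlt : NN σ G < NN σ (star n s)) (A : Set (Fin n))
    (hA : P1 (symmDiff G (completeBip A)) ≤ 48 * (Fintype.card α : ℤ) * s) :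
    (symmDiff G.edgeSet (completeBip A).edgeSet).ncard < s := by
  rw [← edgeSet_symmDiff]
  set R := symmDiff G (completeBip A) with hR
  have hNN : NN σ R = NN σ G := by
    refine NN_switch σ (cc A) (fun x y => ?_)
    rw [hR, az_symmDiff, az_cb]
  have hP1 := P1_eq_edges R
  by_contra hcon
  push Not at hcon
  set m := R.edgeSet.ncard with hm
  set k := Fintype.card α with hk'
  have hk2 : k ≤ k ^ 2 := by nlinarith
  have hks : k * 1 ≤ k ^ 2 * s := Nat.mul_le_mul hk2 hs
  have hks2 : k * s ≤ k ^ 2 * s := Nat.mul_le_mul hk2 le_rfl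
  have hs2 : s ≤ k * s := by nlinarith
  have hlow := NN_lower' σ R h1 h2 hk (by rw [Fintype.card_fin]; nlinarith) hP1
  rw [Fintype.card_fin] at hlow
  have hup := star_upper σ h1 h2 (n := n) (s := s) (by nlinarith)
  have hmle : (m : ℤ) ≤ 24 * (k : ℤ) * s := by linarith
  have hsm : (s : ℤ) ≤ m := by exact_mod_cast hcon
  have hnZ : 100 * ((k : ℤ) ^ 2 * s) ≤ n := by
    have : ((100 * k ^ 2 * s : ℕ) : ℤ) ≤ n := by exact_mod_cast hn
    push_cast at this
    linarith
  have hks2Z : (k : ℤ) * s ≤ (k : ℤ) ^ 2 * s := by exact_mod_cast hks2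
  have hs2Z : (s : ℤ) ≤ (k : ℤ) * s := by exact_mod_cast hs2
  have hs1Z : (1 : ℤ) ≤ s := by exact_mod_cast hs
  have hmono : (s : ℤ) * ((n : ℤ) - 1 - s) ≤ (m : ℤ) * ((n : ℤ) - 1 - m) := by
    have : 0 ≤ ((m : ℤ) - s) * ((n : ℤ) - 1 - m - s) := by
      refine mul_nonneg (by linarith) (by linarith)
    nlinarith
  have hcoef : (0 : ℤ) ≤ 2 * (k : ℤ) * (((n - 3).descFactorial (k - 3) : ℕ) : ℤ) := by positivity
  have := mul_le_mul_of_nonneg_left hmono hcoef
  rw [hNN] at hlow
  linarith

theorem main {k : ℕ} (hk : 3 ≤ k) (t : ℕ) {n : ℕ} (hn : 100 * k ^ 2 * (t + 1) ≤ n)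
    (G : SimpleGraph (Fin n)) (hlt : frustCount k G < frustCount k (star n (t + 1))) :
    (∃ A : Set (Fin n), WithinFlips t G (completeBip A)) ∨
    (∃ A : Set (Fin n), WithinFlips t Gᶜ (completeBip A)) := by
  have h1 := rot_ne hk
  have h2 := rot_rot_ne hk
  set s := t + 1 with hs
  have hltZ : NN (finRotate k) G < NN (finRotate k) (star n s) := by
    rw [← frustCount_eq, ← frustCount_eq]
    exact_mod_cast hlt
  have hs1 : 1 ≤ s := by omega
  have hk2 : k ≤ k ^ 2 := by nlinarith
  have hks : k * 1 ≤ k ^ 2 * s := Nat.mul_le_mul hk2 hs1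
  have hks2 : k * s ≤ k ^ 2 * s := Nat.mul_le_mul hk2 le_rfl
  have hs2 : s ≤ k * s := by nlinarith
  have hup := star_upper (finRotate k) h1 h2 (n := n) (s := s) (by nlinarith)
  rw [Fintype.card_fin] at hup
  have hn1 : k + 1 ≤ n := by nlinarith
  have hn6 : 6 ≤ n := by nlinarith
  set D : ℤ := (((n - 4).descFactorial (k - 3) : ℕ) : ℤ) with hD
  set D3 : ℤ := (((n - 3).descFactorial (k - 3) : ℕ) : ℤ) with hD3
  have hDpos : 0 < D := by
    rw [hD]
    have : 0 < (n - 4).descFactorial (k - 3) := by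
      apply Nat.descFactorial_pos.mpr
      omega
    exact_mod_cast this
  have hD3pos : 0 < D3 := by
    rw [hD3]
    have : 0 < (n - 3).descFactorial (k - 3) := by
      apply Nat.descFactorial_pos.mpr
      omega
    exact_mod_cast this
  have hrel : ((n : ℤ) - k) * D3 = ((n : ℤ) - 3) * D := by
    rw [hD, hD3]
    obtain ⟨b, hb⟩ : ∃ b, n = b + 4 := ⟨n - 4, by omega⟩
    have e1 : n - 3 = b + 1 := by omega
    have e2 : n - 4 = b := by omega
    rw [e1, e2]
    have := Nat.succ_descFactorial b (k - 3)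
    have hbk : ((b + 1 - (k - 3) : ℕ) : ℤ) = (n : ℤ) - k := by omega
    have hb1 : ((b + 1 : ℕ) : ℤ) = (n : ℤ) - 3 := by omega
    rw [← hbk, ← hb1]
    exact_mod_cast this
  have hnZ : 100 * ((k : ℤ) ^ 2 * s) ≤ n := by
    have : ((100 * k ^ 2 * s : ℕ) : ℤ) ≤ n := by exact_mod_cast hn
    push_cast at this
    linarith
  have hk3Z : (3 : ℤ) ≤ k := by exact_mod_cast hk
  have hs1Z : (1 : ℤ) ≤ s := by exact_mod_cast hs1
  have hks2Z : (k : ℤ) * s ≤ (k : ℤ) ^ 2 * s := by exact_mod_cast hks2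
  have hs2Z : (s : ℤ) ≤ (k : ℤ) * s := by exact_mod_cast hs2
  have hknZ : (k : ℤ) + 1 ≤ n := by exact_mod_cast hn1
  -- upper bound for the star
  have hstar : NN (finRotate k) (star n s) ≤ 2 * ((k : ℤ) * s) * ((n : ℤ) * D3) := by
    refine le_trans hup ?_
    have : (s : ℤ) * ((n : ℤ) - 1 - s) ≤ s * n := by nlinarith
    have h3 : 2 * (k : ℤ) * D3 * ((s : ℤ) * ((n : ℤ) - 1 - s)) ≤ 2 * (k : ℤ) * D3 * (s * n) :=
      mul_le_mul_of_nonneg_left this (by positivity)
    linarith
  -- bound on N4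
  have hN4 : N4 G ≤ (4 * ((k : ℤ) * s)) * ((n : ℤ) * ((n : ℤ) - 3)) := by
    have h3 := N4_le (finRotate k) G h1 h2 (⟨0, by omega⟩ : Fin k)
    rw [Fintype.card_fin, Fintype.card_fin] at h3
    have hnk : ((n - k : ℕ) : ℤ) = (n : ℤ) - k := by omega
    rw [hnk] at h3
    have h4 : ((n : ℤ) - k) * NN (finRotate k) G ≤
        ((n : ℤ) - k) * (2 * ((k : ℤ) * s) * ((n : ℤ) * D3)) :=
      mul_le_mul_of_nonneg_left (by linarith) (by linarith)
    have h5 : D * N4 G ≤ D * ((4 * ((k : ℤ) * s)) * ((n : ℤ) * ((n : ℤ) - 3))) := by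
      calc D * N4 G ≤ 2 * (((n : ℤ) - k) * NN (finRotate k) G) := h3
        _ ≤ 2 * (((n : ℤ) - k) * (2 * ((k : ℤ) * s) * ((n : ℤ) * D3))) := by linarith
        _ = 4 * ((k : ℤ) * s) * n * (((n : ℤ) - k) * D3) := by ring
        _ = D * ((4 * ((k : ℤ) * s)) * ((n : ℤ) * ((n : ℤ) - 3))) := by rw [hrel]; ring
    exact le_of_mul_le_mul_left h5 hDpos
  have hfin := structure_thm G (C := 4 * ((k : ℤ) * s)) (by positivity)
    (by rw [Fintype.card_fin]; exact hn6) (by rw [Fintype.card_fin]; exact hN4)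
  obtain ⟨x, hx⟩ := hfin
  rcases hx with hx | hx
  · -- G itself is near
    left
    refine ⟨{y | G.Adj x y}, ?_⟩
    have hP := le_trans (P1_le_e1 G x) hx
    have := near_case (finRotate k) h1 h2 (by rw [Fintype.card_fin]; exact hk) s
      (by rw [Fintype.card_fin]; exact hn) hs1 G hltZ {y | G.Adj x y}
      (by rw [Fintype.card_fin]; linarith)
    unfold WithinFlips
    omega
  · rw [e0_eq_e1_compl] at hx
    have hP := le_trans (P1_le_e1 Gᶜ x) hx
    rcases Nat.even_or_odd k with he | ho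
    · right
      refine ⟨{y | Gᶜ.Adj x y}, ?_⟩
      have hc := NN_compl_even (finRotate k) G h1 (by rw [Fintype.card_fin]; exact he)
      have := near_case (finRotate k) h1 h2 (by rw [Fintype.card_fin]; exact hk) s
        (by rw [Fintype.card_fin]; exact hn) hs1 Gᶜ (by rw [hc]; exact hltZ) {y | Gᶜ.Adj x y}
        (by rw [Fintype.card_fin]; linarith)
      unfold WithinFlips
      omega
    · exfalso
      have hc := NN_compl_odd (finRotate k) G h1 (by rw [Fintype.card_fin]; exact ho)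
      set R := symmDiff Gᶜ (completeBip {y | Gᶜ.Adj x y}) with hR
      have hNN : NN (finRotate k) R = NN (finRotate k) Gᶜ := by
        refine NN_switch (finRotate k) (cc {y | Gᶜ.Adj x y}) (fun x y => ?_)
        rw [hR, az_symmDiff, az_cb]
      have hupR := NN_upper (finRotate k) R h1
      rw [Fintype.card_fin, Fintype.card_fin, hNN, desc2 hk (by omega)] at hupR
      rw [Fintype.card_fin, Fintype.card_fin] at hc
      have hfull : ((n.descFactorial k : ℕ) : ℤ) = (n : ℤ) * (((n : ℤ) - 1) * (((n : ℤ) - 2) * D3)) := by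
        rw [hD3]
        obtain ⟨b, hb⟩ : ∃ b, n = b + 3 := ⟨n - 3, by omega⟩
        obtain ⟨a, ha⟩ : ∃ a, k = a + 3 := ⟨k - 3, by omega⟩
        have e1 : n - 3 = b := by omega
        have e2 : k - 3 = a := by omega
        rw [e1, e2, hb, ha, Nat.succ_descFactorial_succ, Nat.succ_descFactorial_succ,
          Nat.succ_descFactorial_succ]
        push_cast
        ring
      rw [hfull] at hc
      have hR2 : (k : ℤ) * (((n : ℤ) - 2) * D3 * P1 R) ≤
          (k : ℤ) * (((n : ℤ) - 2) * D3 * (48 * ((k : ℤ) * s))) := by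
        refine mul_le_mul_of_nonneg_left (mul_le_mul_of_nonneg_left (by linarith) ?_) (by positivity)
        exact mul_nonneg (by linarith) hD3pos.le
      have htot : D3 * ((n : ℤ) * (((n : ℤ) - 1) * ((n : ℤ) - 2))) ≤
          D3 * (2 * ((k : ℤ) * s) * (n : ℤ) + ((n : ℤ) - 2) * (48 * ((k : ℤ) ^ 2 * s))) := by
        nlinarith
      have htot2 := le_of_mul_le_mul_left htot hD3pos
      have hkk : 2 * ((k : ℤ) * s) * (n : ℤ) + ((n : ℤ) - 2) * (48 * ((k : ℤ) ^ 2 * s)) ≤
          n * (50 * ((k : ℤ) ^ 2 * s)) := by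
        have h5 : 0 ≤ (k : ℤ) ^ 2 * s := by positivity
        have hn0 : (0 : ℤ) ≤ n := by positivity
        have := mul_le_mul_of_nonneg_right hks2Z hn0
        nlinarith
      have h6 : (n : ℤ) * (((n : ℤ) - 1) * ((n : ℤ) - 2)) ≤ n * (50 * ((k : ℤ) ^ 2 * s)) :=
        le_trans htot2 hkk
      have h7 := le_of_mul_le_mul_left h6 (by linarith)
      nlinarith

end

end Frust
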